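import Pool.Agent.H79.WC.CoreC

set_option autoImplicit false

open Polynomial Matrix Pool.Agent.H79.WC

namespace Pool.Agent.Results.MP_c0cef3_al.Contraction

/-- **Contracting conjugates exclude unipotents.**  Let `Γ₁ ≤ SL_2(ℂ)` have all its traces in a
field `K`, and suppose some embedding `σ : K → ℂ` satisfies `|σ(tr g)| ≤ C (1 + |tr g|)^k` on `Γ₁`
with a fixed exponent `0 ≤ k < 1`.  If `Γ₂ ≤ GL_n(ℂ)` is irreducible, preserves a nondegenerate
bilinear or sesquilinear form, and every semisimple element of infinite order of `Γ₂` is weakly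
commensurable to one of `Γ₁`, then `Γ₂` contains no unipotent `u` with `u - 1` of rank one. -/
theorem result {n : ℕ} (Γ₁ : Subgroup (GL (Fin 2) ℂ)) (Γ₂ : Subgroup (GL (Fin n) ℂ))
    (K : Subfield ℂ) (σ : K →+* ℂ) (C k : ℝ) (hk0 : 0 ≤ k) (hk1 : k < 1)
    (hσ : TraceContracts Γ₁ K σ C k) (hWC : WCInto Γ₂ Γ₁)
    (hform : PreservesForm Γ₂) (hirr : Irr Γ₂) :
    ∀ u ∈ Γ₂, ¬ IsRankOneUnipotent u := by
  rintro u hu ⟨a, α, ha, hα, hαa, hua⟩
  obtain ⟨τ, hτ⟩ := exists_ext K σ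
  obtain ⟨g, hg, hne⟩ := exists_pair hform hirr hu ha hα hua
  obtain ⟨h1, h2, h3, h4⟩ := conj_facts g a α hαa
  have hv : g * u * g⁻¹ ∈ Γ₂ := Γ₂.mul_mem (Γ₂.mul_mem hg hu) (Γ₂.inv_mem hg)
  have hvB : ((g * u * g⁻¹ : GL (Fin n) ℂ) : Matrix (Fin n) (Fin n) ℂ) =
      1 + (g : Matrix (Fin n) (Fin n) ℂ) * Matrix.vecMulVec a α *
        ((g⁻¹ : GL (Fin n) ℂ) : Matrix (Fin n) (Fin n) ℂ) := by
    rw [Units.val_mul, Units.val_mul, hua, mul_add, add_mul, mul_one, ← Units.val_mul,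
      mul_inv_cancel, Units.val_one]
  have hA0 : Matrix.vecMulVec a α ≠ 0 := by
    obtain ⟨i, hi⟩ := Function.ne_iff.1 ha
    obtain ⟨j, hj⟩ := Function.ne_iff.1 hα
    intro h0
    have := congrFun (congrFun h0 i) j
    rw [Matrix.vecMulVec_apply] at this
    exact (mul_ne_zero hi hj) this
  exact hne (core_contract hk0 hk1 (hσ.contracts hk0 τ hτ) hWC hu hv hua hvB h1 h2 hA0 h3 h4)

end Pool.Agent.Results.MP_c0cef3_al.Contraction
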