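import Pool.Agent.H79.WC.Twist
import Pool.Agent.H79.WC.BT

set_option autoImplicit false

open Polynomial Matrix Set Cardinal Pool.Agent.H79.WC
open scoped commutatorElement

namespace Pool.Agent.Results.MP_c0cef3_al.GenericSurface

/-- the inclusion of `SL₂(ℝ)` into `GL₂(ℂ)` -/
noncomputable def incl : SpecialLinearGroup (Fin 2) ℝ →* GL (Fin 2) ℂ :=
  Matrix.SpecialLinearGroup.toGL.comp (Matrix.SpecialLinearGroup.map Complex.ofRealHom)

/-- **Generic closed Fuchsian groups are not weakly commensurable to groups with unipotents.**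
Let `Γ₁ ≤ SL₂(ℝ)` be generated by `A₀, B₀, …, A_{g-1}, B_{g-1}` (where `g = n + 2`) with
`∏ [A_i, B_i] = 1` and `[A_i, B_i] ≠ 1`, suppose that all elements of `Γ₁` other than `1` are
hyperbolic, and that the field generated by the traces of `Γ₁` has transcendence degree at least
`6g - 6` over `ℚ`.  Then no irreducible subgroup `Γ₂ ≤ GL_m(ℂ)` preserving a nondegenerate bilinear
or sesquilinear form, all of whose semisimple elements of infinite order are weakly commensurable to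
such elements of `Γ₁`, contains a unipotent element `u` with `u - 1` of rank one. -/
theorem result {n m : ℕ} (A B : Fin (n + 2) → SpecialLinearGroup (Fin 2) ℝ)
    (hrel : (List.ofFn fun i => ⁅A i, B i⁆).prod = 1) (hne : ∀ i, ⁅A i, B i⁆ ≠ 1)
    (Γ₁ : Subgroup (SpecialLinearGroup (Fin 2) ℝ))
    (hgen : Γ₁ = Subgroup.closure (range A ∪ range B))
    (hhyp : ∀ γ ∈ Γ₁, γ ≠ 1 → 2 < |(γ : Matrix (Fin 2) (Fin 2) ℝ).trace|)
    (htr : ((6 * n + 6 : ℕ) : Cardinal) ≤ Algebra.trdeg ℚ (IntermediateField.adjoin ℚ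
      {t : ℝ | ∃ γ ∈ Γ₁, t = (γ : Matrix (Fin 2) (Fin 2) ℝ).trace}))
    (Γ₂ : Subgroup (GL (Fin m) ℂ)) (hirr : Irr Γ₂) (hform : PreservesForm Γ₂)
    (hWC : WCInto Γ₂ (Γ₁.map incl)) :
    ∀ u ∈ Γ₂, ¬ IsRankOneUnipotent u := by
  let f : SpecialLinearGroup (Fin 2) ℝ →* SpecialLinearGroup (Fin 2) ℂ :=
    Matrix.SpecialLinearGroup.map Complex.ofRealHom
  have hf : ∀ γ, (mt (f γ)).trace = (((γ : Matrix (Fin 2) (Fin 2) ℝ).trace : ℝ) : ℂ) := by
    intro γ
    rw [Matrix.trace_fin_two, Matrix.trace_fin_two]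
    push_cast
    rfl
  have hfc : ∀ i, ⁅f (A i), f (B i)⁆ = f ⁅A i, B i⁆ := fun i => (map_commutatorElement f _ _).symm
  have hrel' : (List.ofFn fun i => ⁅f (A i), f (B i)⁆).prod = 1 := by
    have h1 : (List.ofFn fun i => ⁅f (A i), f (B i)⁆) =
        (List.ofFn fun i => ⁅A i, B i⁆).map f := by
      rw [List.map_ofFn]
      congr 1
      funext i
      exact hfc i
    rw [h1, ← map_list_prod, hrel, map_one]
  have hmap : Subgroup.closure (range (fun i => f (A i)) ∪ range (fun i => f (B i))) =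
      Γ₁.map f := by
    rw [hgen, MonoidHom.map_closure, Set.image_union, ← Set.range_comp, ← Set.range_comp]
    rfl
  have hA : ∀ i, A i ∈ Γ₁ := fun i => by
    rw [hgen]
    exact Subgroup.subset_closure (Or.inl ⟨i, rfl⟩)
  have hB : ∀ i, B i ∈ Γ₁ := fun i => by
    rw [hgen]
    exact Subgroup.subset_closure (Or.inr ⟨i, rfl⟩)
  have hcm : ∀ i, ⁅A i, B i⁆ ∈ Γ₁ := fun i => by
    rw [commutatorElement_def]
    exact Γ₁.mul_mem (Γ₁.mul_mem (Γ₁.mul_mem (hA i) (hB i)) (Γ₁.inv_mem (hA i)))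
      (Γ₁.inv_mem (hB i))
  have hA1 : ∀ i, A i ≠ 1 := by
    intro i h
    apply hne i
    rw [h, commutatorElement_one_left]
  obtain ⟨L, σ, hσ⟩ := exists_twist (fun i => f (A i)) (fun i => f (B i)) hrel'
    (by
      intro i h
      rw [hfc, hf] at h
      have h1 := hhyp _ (hcm i) (hne i)
      have h2 : ((⁅A i, B i⁆ : SpecialLinearGroup (Fin 2) ℝ) :
          Matrix (Fin 2) (Fin 2) ℝ).trace = 2 := by exact_mod_cast h
      rw [h2] at h1
      norm_num at h1)
    (by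
      intro i h
      rw [hf] at h
      have h1 := hhyp _ (hA i) (hA1 i)
      have h2 : (A i : Matrix (Fin 2) (Fin 2) ℝ).trace ^ 2 = 4 := by exact_mod_cast h
      have h3 : |(A i : Matrix (Fin 2) (Fin 2) ℝ).trace| ^ 2 = 4 := by rw [sq_abs, h2]
      nlinarith)
    (by
      intro L hL
      refine htr.trans ?_
      let e : ℝ →ₐ[ℚ] ℂ := (Algebra.ofId ℝ ℂ).restrictScalars ℚ
      set T := {t : ℝ | ∃ γ ∈ Γ₁, t = (γ : Matrix (Fin 2) (Fin 2) ℝ).trace}
      have hle : (IntermediateField.adjoin ℚ T).map e ≤ L := by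
        rw [IntermediateField.adjoin_map, IntermediateField.adjoin_le_iff]
        rintro _ ⟨t, ⟨γ, hγ, rfl⟩, rfl⟩
        have h1 := hL (f γ) (by rw [hmap]; exact ⟨γ, hγ, rfl⟩)
        rw [hf] at h1
        exact h1
      let φ : IntermediateField.adjoin ℚ T →ₐ[ℚ] L :=
        (e.comp (IntermediateField.adjoin ℚ T).val).codRestrict L.toSubalgebra
          (fun x => hle ⟨x, x.2, rfl⟩)
      exact trdeg_le_of_injective φ φ.toRingHom.injective)
  have hbt : BoundedTwist (Γ₁.map incl) L.toSubfield (σ : L.toSubfield →+* ℂ) 2 := by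
    rintro _ ⟨γ, hγ, rfl⟩ i
    obtain ⟨h1, h2⟩ := hσ (f γ) (by rw [hmap]; exact ⟨γ, hγ, rfl⟩)
    have h3 : ((incl γ : GL (Fin 2) ℂ) : Matrix (Fin 2) (Fin 2) ℂ) = mt (f γ) := rfl
    rw [h3, Matrix.charpoly_fin_two, mt_det]
    match i with
    | 0 =>
      refine ⟨1, by simp, ?_⟩
      rw [map_one]
      norm_num
    | 1 =>
      refine ⟨-⟨_, h1⟩, by simp [Polynomial.coeff_one], ?_⟩
      rw [map_neg, norm_neg]
      exact h2
    | 2 =>
      refine ⟨1, by simp [Polynomial.coeff_one], ?_⟩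
      rw [map_one]
      norm_num
    | (k + 3) =>
      refine ⟨0, ?_, by simp⟩
      simp [Polynomial.coeff_one, Polynomial.coeff_X_pow]
  exact no_unipotent (Γ₁.map incl) Γ₂ L.toSubfield σ 2 hbt hWC hform hirr

end Pool.Agent.Results.MP_c0cef3_al.GenericSurface
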