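import Pool.Agent.H79.WC.PMain

set_option autoImplicit false

open Polynomial Matrix Pool.Agent.H79.WC

namespace Pool.Agent.Results.MP_c0cef3_al.PAdicTwist

/-- **Nonarchimedean ramification excludes unipotents.**  Let `F` be a complete nonarchimedean
field of characteristic zero with residue characteristic `p` (for instance a finite extension of
`ℚ_p`).  Let `Γ₁ ≤ SL_2(ℂ)` have all its traces in a field `K` and let `σ : K → F` be an embedding
such that no element of `Γ₁` becomes split over `F`: `σ(tr g)^2 - 4` is never a nonzero square in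
`F` (this holds if the quaternion algebra of `Γ₁` over `K` becomes a division algebra over `F`).
If `Γ₂ ≤ GL_n(ℂ)` is irreducible, preserves a nondegenerate bilinear or sesquilinear form, and
every semisimple element of infinite order of `Γ₂` is weakly commensurable to one of `Γ₁`, then
`Γ₂` contains no unipotent `u` with `u - 1` of rank one. -/
theorem result {n : ℕ} (F : Type) [NontriviallyNormedField F] [CompleteSpace F]
    [IsUltrametricDist F] [CharZero F] (p : ℕ) (hp : p.Prime) (hpF : ‖(p : F)‖ < 1)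
    (Γ₁ : Subgroup (GL (Fin 2) ℂ)) (Γ₂ : Subgroup (GL (Fin n) ℂ))
    (K : Subfield ℂ) (σ : K →+* F) (hσ : NonSplit Γ₁ K σ) (hWC : WCInto Γ₂ Γ₁)
    (hform : PreservesForm Γ₂) (hirr : Irr Γ₂) :
    ∀ u ∈ Γ₂, ¬ IsRankOneUnipotent u := by
  rintro u hu ⟨a, α, ha, hα, hαa, hua⟩
  obtain ⟨g, hg, hne⟩ := exists_pair hform hirr hu ha hα hua
  obtain ⟨h1, h2, h3, h4⟩ := conj_facts g a α hαa
  have hv : g * u * g⁻¹ ∈ Γ₂ := Γ₂.mul_mem (Γ₂.mul_mem hg hu) (Γ₂.inv_mem hg)
  have hvB : ((g * u * g⁻¹ : GL (Fin n) ℂ) : Matrix (Fin n) (Fin n) ℂ) =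
      1 + (g : Matrix (Fin n) (Fin n) ℂ) * Matrix.vecMulVec a α *
        ((g⁻¹ : GL (Fin n) ℂ) : Matrix (Fin n) (Fin n) ℂ) := by
    rw [Units.val_mul, Units.val_mul, hua, mul_add, add_mul, mul_one, ← Units.val_mul,
      mul_inv_cancel, Units.val_one]
  have hA0 : Matrix.vecMulVec a α ≠ 0 := by
    obtain ⟨i, hi⟩ := Function.ne_iff.1 ha
    obtain ⟨j, hj⟩ := Function.ne_iff.1 hα
    intro h0
    have := congrFun (congrFun h0 i) j
    rw [Matrix.vecMulVec_apply] at this
    exact (mul_ne_zero hi hj) this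
  exact hne (core_padic hp hpF hσ hWC ⟨hu, hv, hua, hvB, h1, h2, hA0, h3, h4⟩)

end Pool.Agent.Results.MP_c0cef3_al.PAdicTwist
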